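import Pool.Agent.Helper39.Uct.Goals2

/-!
MP_d97caa_an, packet PE: points exist.
-/

open scoped ComplexOrder NNReal

namespace Pool.Agent.Helper93.Uct

open Pool.Agent.Helper39.Uct

section positivity

variable {A : Type*} [CStarAlgebra A]

lemma im_zero (f : A →L[ℂ] ℂ) (hf : ‖f‖ ≤ 1) (h1 : f 1 = 1) {a : A} (ha : IsSelfAdjoint a) :
    (f a).im = 0 := by
  have hnt : Nontrivial A := by
    refine ⟨⟨1, 0, fun h => ?_⟩⟩
    rw [h, map_zero] at h1
    exact zero_ne_one h1
  have key : ∀ t : ℝ, (f a).re ^ 2 + ((f a).im + t) ^ 2 ≤ ‖a‖ ^ 2 + t ^ 2 := by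
    intro t
    set x : A := a + ((t : ℂ) * Complex.I) • (1 : A) with hx
    have h2 : ‖f x‖ ≤ ‖x‖ := by
      refine (f.le_opNorm x).trans ?_
      calc ‖f‖ * ‖x‖ ≤ 1 * ‖x‖ := mul_le_mul_of_nonneg_right hf (norm_nonneg x)
        _ = ‖x‖ := one_mul _
    have h3 : ‖x‖ ^ 2 ≤ ‖a‖ ^ 2 + t ^ 2 := by
      have e1 : star x * x = a * a + ((t : ℂ) ^ 2) • (1 : A) := by
        rw [hx, star_add, ha.star_eq, star_smul, star_one]
        have e2 : star ((t : ℂ) * Complex.I) = -((t : ℂ) * Complex.I) := by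
          simp
        rw [e2, add_mul, mul_add, mul_add, smul_mul_assoc, smul_mul_assoc, one_mul, one_mul,
          mul_smul_comm, mul_one, neg_smul, neg_smul, smul_smul]
        have e3 : (t : ℂ) * Complex.I * ((t : ℂ) * Complex.I) = -((t : ℂ) ^ 2) := by
          have := Complex.I_sq
          linear_combination ((t : ℂ) ^ 2) * this
        rw [e3, neg_smul]
        abel
      rw [sq, ← CStarRing.norm_star_mul_self, e1]
      refine (norm_add_le _ _).trans ?_
      have e4 : ‖a * a‖ ≤ ‖a‖ ^ 2 := by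
        rw [sq]; exact norm_mul_le _ _
      have e5 : ‖((t : ℂ) ^ 2) • (1 : A)‖ ≤ t ^ 2 := by
        rw [norm_smul, CStarRing.norm_one, mul_one, norm_pow, Complex.norm_real,
          Real.norm_eq_abs, sq_abs]
      linarith
    have h4 : f x = f a + (t : ℂ) * Complex.I := by
      rw [hx, map_add, map_smul, h1, smul_eq_mul, mul_one]
    have h5 : ‖f x‖ ^ 2 = (f a).re ^ 2 + ((f a).im + t) ^ 2 := by
      rw [Complex.sq_norm, Complex.normSq_apply, h4]
      simp
      ring
    rw [← h5]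
    exact (pow_le_pow_left₀ (norm_nonneg _) h2 2).trans h3
  by_contra hne
  have h6 := key ((‖a‖ ^ 2 + 1) / (2 * (f a).im))
  set y := (f a).im with hy
  have h7 : (y + (‖a‖ ^ 2 + 1) / (2 * y)) ^ 2 =
      y ^ 2 + (‖a‖ ^ 2 + 1) + ((‖a‖ ^ 2 + 1) / (2 * y)) ^ 2 := by
    field_simp
    ring
  rw [h7] at h6
  nlinarith [sq_nonneg (f a).re, sq_nonneg y]

lemma nonneg_of_norm (f : A →L[ℂ] ℂ) (hf : ‖f‖ ≤ 1) (h1 : f 1 = 1) (b : A) :
    0 ≤ f (star b * b) := by
  have hsa : IsSelfAdjoint (star b * b) := IsSelfAdjoint.star_mul_self b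
  have him := im_zero f hf h1 hsa
  have hs : SpectrumRestricts (star b * b) ContinuousMap.realToNNReal :=
    (SpectrumRestricts.nnreal_iff).2 spectrum_star_mul_self_nonneg
  have h2 := (SpectrumRestricts.nnreal_iff_nnnorm hsa (le_refl _)).1 hs
  have h3 : ‖algebraMap ℝ A ‖star b * b‖ - star b * b‖ ≤ ‖star b * b‖ := by
    exact_mod_cast h2
  set t : ℝ := ‖star b * b‖ with ht
  have h4 : f (algebraMap ℝ A t - star b * b) = (t : ℂ) - f (star b * b) := by
    rw [map_sub, Algebra.algebraMap_eq_smul_one]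
    congr 1
    have e : (t : ℝ) • (1 : A) = ((t : ℂ)) • (1 : A) := (Complex.coe_smul t (1 : A)).symm
    rw [e, map_smul, h1, smul_eq_mul, mul_one]
  have h5 : ‖(t : ℂ) - f (star b * b)‖ ≤ t := by
    rw [← h4]
    refine (f.le_opNorm _).trans ?_
    calc ‖f‖ * ‖algebraMap ℝ A t - star b * b‖ ≤ 1 * t :=
          mul_le_mul hf h3 (norm_nonneg _) zero_le_one
      _ = t := one_mul _
  have h6 : t - (f (star b * b)).re ≤ t := by
    have := (Complex.re_le_norm ((t : ℂ) - f (star b * b))).trans h5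
    simpa using this
  rw [Complex.nonneg_iff]
  exact ⟨by linarith, him.symm⟩

end positivity

section unitization

variable {Q : Type} [Group Q] {B : Type} [NonUnitalCStarAlgebra B] (G : Fib Q B)

lemma one_mul_mem {x y : B} (hx : x ∈ G.fib 1) (hy : y ∈ G.fib 1) : x * y ∈ G.fib 1 := by
  have := G.mul_mem 1 1 x y hx hy
  rwa [mul_one] at this

lemma one_star_mem {x : B} (hx : x ∈ G.fib 1) : star x ∈ G.fib 1 := by
  have := G.star_mem 1 x hx
  rwa [inv_one] at this

/-- The unitization of the unit fibre inside the unitization of `B`. -/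
def Sub : StarSubalgebra ℂ (Unitization ℂ B) where
  carrier := {x | x.snd ∈ G.fib 1}
  mul_mem' := by
    intro x y hx hy
    show (x * y).snd ∈ G.fib 1
    rw [Unitization.snd_mul]
    exact (G.fib 1).add_mem ((G.fib 1).add_mem ((G.fib 1).smul_mem _ hy)
      ((G.fib 1).smul_mem _ hx)) (one_mul_mem G hx hy)
  add_mem' := by
    intro x y hx hy
    show (x + y).snd ∈ G.fib 1
    rw [Unitization.snd_add]
    exact (G.fib 1).add_mem hx hy
  algebraMap_mem' := by
    intro r
    show (algebraMap ℂ (Unitization ℂ B) r).snd ∈ G.fib 1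
    rw [Unitization.algebraMap_eq_inl, Unitization.snd_inl]
    exact (G.fib 1).zero_mem
  star_mem' := by
    intro x hx
    show (star x).snd ∈ G.fib 1
    rw [Unitization.snd_star]
    exact one_star_mem G hx

lemma mem_Sub {x : Unitization ℂ B} : x ∈ Sub G ↔ x.snd ∈ G.fib 1 := Iff.rfl

lemma isClosed_Sub : IsClosed (Sub G : Set (Unitization ℂ B)) :=
  (G.closed 1).preimage Unitization.continuous_snd

/-- The commutative unital C*-algebra `Sub G`. -/
@[reducible] noncomputable def commSub (hG : G.Comm) : CommCStarAlgebra (Sub G) :=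
  haveI : IsClosed (Sub G : Set (Unitization ℂ B)) := isClosed_Sub G
  { StarSubalgebra.cstarAlgebra (Sub G) with
    mul_comm := by
      rintro ⟨x, hx⟩ ⟨y, hy⟩
      apply Subtype.ext
      show x * y = y * x
      apply Unitization.ext
      · rw [Unitization.fst_mul, Unitization.fst_mul, mul_comm]
      · rw [Unitization.snd_mul, Unitization.snd_mul, hG _ hx _ hy]
        congr 1
        rw [add_comm] }

end unitization

theorem pe : S_PE := by
  intro Q _ B _ G hG c hc hc0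
  let _ : CommCStarAlgebra (Sub G) := commSub G hG
  have hcS : (c : Unitization ℂ B) ∈ Sub G := by
    rw [mem_Sub, Unitization.snd_inr]
    exact hc
  set s : Sub G := ⟨(c : Unitization ℂ B), hcS⟩ with hs
  have hns : ‖s‖ = ‖c‖ := Unitization.norm_inr (𝕜 := ℂ) c
  have hs0 : s ≠ 0 := by
    intro h
    rw [h, norm_zero] at hns
    exact hc0 (norm_eq_zero.1 hns.symm)
  have : Nontrivial (Sub G) := ⟨⟨s, 0, hs0⟩⟩
  -- a character attaining the norm
  obtain ⟨χ, hχ⟩ : ∃ χ : WeakDual.characterSpace ℂ (Sub G), ‖χ s‖ = ‖s‖ := by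
    have h1 : ‖WeakDual.gelfandTransform ℂ (Sub G) s‖ = ‖s‖ :=
      (AddMonoidHomClass.isometry_iff_norm _).1 (gelfandTransform_isometry (Sub G)) s
    obtain ⟨χ, -, hχ⟩ := IsCompact.exists_isMaxOn (isCompact_univ (X := WeakDual.characterSpace ℂ (Sub G)))
      Set.univ_nonempty (f := fun χ => ‖WeakDual.gelfandTransform ℂ (Sub G) s χ‖) (by fun_prop)
    refine ⟨χ, le_antisymm ?_ ?_⟩
    · rw [← h1]
      exact ContinuousMap.norm_coe_le_norm (WeakDual.gelfandTransform ℂ (Sub G) s) χ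
    · rw [← h1]
      rw [ContinuousMap.norm_le _ (norm_nonneg _)]
      intro χ'
      exact hχ (Set.mem_univ χ')
  have hb : ∀ x : Sub G, ‖χ x‖ ≤ ‖x‖ := by
    intro x
    exact spectrum.norm_le_norm_of_mem (AlgHom.apply_mem_spectrum χ x)
  -- Hahn-Banach
  let p : Submodule ℂ (Unitization ℂ B) := Subalgebra.toSubmodule (Sub G).toSubalgebra
  let f₀ : p →ₗ[ℂ] ℂ :=
    { toFun := fun x => χ (⟨x.1, x.2⟩ : Sub G)
      map_add' := fun x y => map_add χ (⟨x.1, x.2⟩ : Sub G) (⟨y.1, y.2⟩ : Sub G)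
      map_smul' := fun r x => map_smul χ r (⟨x.1, x.2⟩ : Sub G) }
  let f : StrongDual ℂ p := f₀.mkContinuous 1 (fun x => by
    rw [one_mul]
    exact hb (⟨x.1, x.2⟩ : Sub G))
  obtain ⟨g, hg, hgn⟩ := exists_extension_norm_eq p f
  have hgn1 : ‖g‖ ≤ 1 := by
    rw [hgn]
    exact LinearMap.mkContinuous_norm_le _ zero_le_one _
  have hgS : ∀ (x : Unitization ℂ B) (hx : x ∈ Sub G), g x = χ (⟨x, hx⟩ : Sub G) :=
    fun x hx => hg ⟨x, hx⟩
  have hg1 : g 1 = 1 := by
    rw [hgS 1 (Sub G).one_mem]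
    exact map_one χ
  have hgc : ∀ (x : B) (hx : x ∈ G.fib 1), g (x : Unitization ℂ B) =
      χ (⟨(x : Unitization ℂ B), by rw [mem_Sub, Unitization.snd_inr]; exact hx⟩ : Sub G) :=
    fun x hx => hgS _ _
  refine ⟨⟨g.toLinearMap ∘ₗ (Unitization.inrHom ℂ ℂ B), ?_, ?_, ?_, ?_⟩, ?_⟩
  · intro b
    show ‖g (b : Unitization ℂ B)‖ ≤ ‖b‖
    refine (g.le_opNorm _).trans ?_
    rw [Unitization.norm_inr]
    calc ‖g‖ * ‖b‖ ≤ 1 * ‖b‖ := mul_le_mul_of_nonneg_right hgn1 (norm_nonneg b)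
      _ = ‖b‖ := one_mul _
  · intro b
    show 0 ≤ g ((star b * b : B) : Unitization ℂ B)
    rw [Unitization.inr_mul, Unitization.inr_star]
    exact nonneg_of_norm g hgn1 hg1 _
  · intro x hx y hy
    show g ((x * y : B) : Unitization ℂ B) = g (x : Unitization ℂ B) * g (y : Unitization ℂ B)
    rw [hgc _ (one_mul_mem G hx hy), hgc _ hx, hgc _ hy, ← map_mul]
    congr 1
    apply Subtype.ext
    exact Unitization.inr_mul ℂ x y
  · refine ⟨c, hc, ?_⟩
    show g (c : Unitization ℂ B) ≠ 0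
    intro h0
    rw [hgc _ hc] at h0
    have : ‖χ s‖ = 0 := by rw [h0, norm_zero]
    rw [hχ, hns] at this
    exact hc0 (norm_eq_zero.1 this)
  · show ‖g (c : Unitization ℂ B)‖ = ‖c‖
    rw [hgc _ hc, ← hns]
    exact hχ

end Pool.Agent.Helper93.Uct
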